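import Pool.Agent.N24.KM.Stm
import Pool.Agent.N618.RO.Base
import Pool.Agent.N262.ZPO.Orb

/-!
# Metric sequences of parameters and prime divisors of the values of polynomials (helper file)

Countably many pronull sets at once, and one set of density zero.
-/

set_option autoImplicit false

namespace Pool.Agent.N18.KM

open MvPolynomial MeasureTheory Filter Topology
open Pool.Agent.N24.RW Pool.Agent.N24.KM
open Pool.Agent.N603.TH (Divergent)
open Pool.Agent.N618.RO (Bd Rare rare_empty)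

/-- the three types of metric sequences, for a property which follows from rare visits in countably
many pronull sets -/
theorem parts (hM : S_MET) {ι κ : Type} [Fintype ι] [Countable κ] (B : κ → Set (ι → ℤ))
    (hB : ∀ x, ProNull (B x)) (P : (ℕ → ι → ℤ) → Prop) (hP : ∀ c, (∀ x, Rarely c (B x)) → P c) :
    (∀ (a b : ι → ℝ) (f : ι → ℕ → ℝ → ℝ), (∀ i, a i < b i) → (∀ i, Koksma (a i) (b i) (f i)) →
      ∀ᵐ α : ι → ℝ, (∀ i, α i ∈ Set.Icc (a i) (b i)) → P (fun n i => ⌊f i n (α i)⌋)) ∧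
    (∀ (a : ι → ℕ → ℝ) (δ : ℝ), 0 < δ → (∀ i m n, m ≠ n → δ ≤ |a i m - a i n|) →
      ∀ᵐ α : ι → ℝ, P (fun n i => ⌊a i n * α i⌋)) ∧
    (∀ (k : ℕ → ℕ) (ξ : ι → ℝ), Function.Injective k → (∀ i, ξ i ≠ 0) →
      ∀ᵐ α : ι → ℝ, (∀ i, 1 < α i) → P (fun n i => ⌊ξ i * α i ^ k n⌋)) := by
  refine ⟨fun a b f hab hf => ?_, fun a δ hδ ha => ?_, fun k ξ hk hξ => ?_⟩
  · have h1 : ∀ᵐ α : ι → ℝ, ∀ x : κ, (∀ i, α i ∈ Set.Icc (a i) (b i)) →
        Rarely (fun n i => ⌊f i n (α i)⌋) (B x) :=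
      ae_all_iff.2 fun x => (hM ι (B x) (hB x)).1 a b f hab hf
    filter_upwards [h1] with α hα hI
    exact hP _ fun x => hα x hI
  · have h1 : ∀ᵐ α : ι → ℝ, ∀ x : κ, Rarely (fun n i => ⌊a i n * α i⌋) (B x) :=
      ae_all_iff.2 fun x => (hM ι (B x) (hB x)).2.1 a δ hδ ha
    filter_upwards [h1] with α hα
    exact hP _ hα
  · have h1 : ∀ᵐ α : ι → ℝ, ∀ x : κ, (∀ i, 1 < α i) →
        Rarely (fun n i => ⌊ξ i * α i ^ k n⌋) (B x) :=
      ae_all_iff.2 fun x => (hM ι (B x) (hB x)).2.2 k ξ hk hξ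
    filter_upwards [h1] with α hα h2
    exact hP _ fun x => hα x h2

/-- one set of density zero for countably many rare visits -/
theorem one_set {ι κ : Type} [Countable κ] (c : ℕ → ι → ℤ) (B : κ → Set (ι → ℤ))
    (h : ∀ x, Rarely c (B x)) :
    ∃ E : Set ℕ, Tendsto (fun N : ℕ => (({n : ℕ | n < N ∧ n ∈ E}.ncard : ℕ) : ℝ) / (N : ℝ)) atTop
      (𝓝 0) ∧ ∀ x, {n : ℕ | n ∉ E ∧ c n ∈ B x}.Finite := by
  classical
  rcases isEmpty_or_nonempty κ with hκ | hκ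
  · exact ⟨∅, rare_empty, fun x => (hκ.false x).elim⟩
  obtain ⟨f, hf⟩ := exists_surjective_nat κ
  let E' : ℕ → Set ℕ := fun k => ⋃ j ∈ Finset.range (k + 1), {n : ℕ | c n ∈ B (f j)}
  have hmono : Monotone E' := by
    intro k k' hkk
    exact Set.biUnion_subset_biUnion_left fun j hj => by
      rw [Finset.mem_coe, Finset.mem_range] at *
      omega
  have hsucc : ∀ k, E' (k + 1) = E' k ∪ {n : ℕ | c n ∈ B (f (k + 1))} := by
    intro k
    change (⋃ j ∈ Finset.range (k + 1 + 1), {n : ℕ | c n ∈ B (f j)}) = _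
    rw [Finset.range_add_one, Finset.set_biUnion_insert, Set.union_comm]
  have hzero : E' 0 = {n : ℕ | c n ∈ B (f 0)} := by
    change (⋃ j ∈ Finset.range (0 + 1), {n : ℕ | c n ∈ B (f j)}) = _
    simp
  have hn : ∀ k, Rare (E' k) := by
    intro k
    induction k with
    | zero => rw [hzero]; exact h _
    | succ k ih => rw [hsucc]; exact ih.union (h _)
  obtain ⟨E, e1, e2⟩ := Pool.Agent.N262.ZPO.diag hmono hn
  refine ⟨E, e1, fun x => ?_⟩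
  obtain ⟨k, rfl⟩ := hf x
  refine (e2 k).subset ?_
  rintro n ⟨h1, h2⟩
  refine ⟨?_, h1⟩
  exact Set.mem_biUnion (x := k) (Finset.mem_coe.2 (Finset.mem_range.2 (by omega))) h2

/-- the data: polynomials `h`, `G` in `r` variables, a bound -/
def Dat (r : ℕ) : Type :=
  {x : MvPolynomial (Fin r) ℤ × MvPolynomial (Fin r) ℤ × ℕ // x.1 ≠ 0 ∧ Divergent x.1 x.2.1}

instance (r : ℕ) : Countable (Dat r) := by
  have := Pool.Agent.N618.RO.countable_mv r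
  unfold Dat
  infer_instance

/-- for almost all metric sequences: one set of density zero for all pairs of polynomials -/
theorem parts_pol (hC : S_CRIT) (hD : S_CLO) (hM : S_MET) (r : ℕ) (P : (ℕ → Fin r → ℤ) → Prop)
    (hP : ∀ (c : ℕ → Fin r → ℤ) (E : Set ℕ),
      Tendsto (fun N : ℕ => (({n : ℕ | n < N ∧ n ∈ E}.ncard : ℕ) : ℝ) / (N : ℝ)) atTop (𝓝 0) →
      (∀ (h G : MvPolynomial (Fin r) ℤ) (D : ℕ), h ≠ 0 → Divergent h G →
        {n : ℕ | n ∉ E ∧ ¬ (eval (c n) h ≠ 0 ∧ ∃ p : ℕ, p.Prime ∧ D < p ∧ (p : ℤ) ∣ eval (c n) h ∧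
          ¬ (p : ℤ) ∣ eval (c n) G)}.Finite) → P c) :
    (∀ (a b : Fin r → ℝ) (f : Fin r → ℕ → ℝ → ℝ), (∀ i, a i < b i) →
      (∀ i, Koksma (a i) (b i) (f i)) →
      ∀ᵐ α : Fin r → ℝ, (∀ i, α i ∈ Set.Icc (a i) (b i)) → P (fun n i => ⌊f i n (α i)⌋)) ∧
    (∀ (a : Fin r → ℕ → ℝ) (δ : ℝ), 0 < δ → (∀ i m n, m ≠ n → δ ≤ |a i m - a i n|) →
      ∀ᵐ α : Fin r → ℝ, P (fun n i => ⌊a i n * α i⌋)) ∧
    (∀ (k : ℕ → ℕ) (ξ : Fin r → ℝ), Function.Injective k → (∀ i, ξ i ≠ 0) →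
      ∀ᵐ α : Fin r → ℝ, (∀ i, 1 < α i) → P (fun n i => ⌊ξ i * α i ^ k n⌋)) := by
  refine parts hM (κ := Dat r) (fun x => Bd x.1.1 x.1.2.1 x.1.2.2)
    (fun x => Pool.Agent.N618.RO.bd_null hC hD x.2.1 x.2.2 _) P fun c hc => ?_
  obtain ⟨E, e1, e2⟩ := one_set c _ hc
  exact hP c E e1 fun h G D h0 hd => e2 ⟨(h, G, D), h0, hd⟩

end Pool.Agent.N18.KM
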