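import Pool.Agent.N18.KM.Base
import Pool.Agent.N514.TH.Dens
import Pool.Agent.R424.MP.Main
import Pool.Agent.R424.PT.Main

/-!
# Metric sequences of parameters and families of subvarieties of the powers of elliptic schemes
(helper file)
-/

set_option autoImplicit false

namespace Pool.Agent.N18.KM

open MvPolynomial MeasureTheory Filter Topology
open Pool.Agent.R424.MP Pool.Agent.R424.TG Pool.Agent.R424.PT
open Pool.Agent.N24.RW Pool.Agent.N24.KM
open Pool.Agent.N514.TH (Om Ok mem_Om dens_Om)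
open Pool.Agent.Results.MP_28d749_ag.RandomMultisections (curve)

/-- The local criterion for the members of a family with several parameters. -/
theorem local_pink {s r q N : ℕ} {κ : Type} [Finite κ] {m M : ℕ}
    (supp : κ → Finset ((Coord r q ⊕ Fin N) →₀ ℕ))
    (c : κ → ((Coord r q ⊕ Fin N) →₀ ℕ) → Polynomial (MvPolynomial (Fin s) ℤ))
    (h : Fin M → Polynomial (MvPolynomial (Fin s) ℤ))
    (e : Fin M → κ → ((Coord r q ⊕ Fin N) →₀ ℕ) → ℕ)
    (he : ∀ l j, ∀ β ∈ supp j, HasOrd (h l) (c j β) (e l j β)) (hgen : GenericP m supp e) :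
    ∃ G : Fin M → Polynomial (MvPolynomial (Fin s) ℤ), (∀ l, CoprimeTo (h l) (G l)) ∧
      ∀ v : Fin (s + 1) → ℤ, (∀ l, ∃ p : ℕ, p.Prime ∧ Ok (h l) (G l) p v) →
        NoAtypicalP m (OnX supp (fun j β => ((ev (v 0) (fun i => v i.succ) (c j β) : ℤ) : ℂ)) :
          ∀ x : Fin 2 ⊕ Fin r → ℂ, (Fin q → (curve (x (Sum.inl 0)) (x (Sum.inl 1))).Point) →
            Prop) := by
  classical
  have := Fintype.ofFinite κ
  let ι := Σ j : κ, {β // β ∈ supp j}
  have hg : ∀ (l : Fin M) (x : ι), ∃ g, c x.1 x.2 = h l ^ e l x.1 x.2 * g ∧ CoprimeTo (h l) g :=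
    fun l x => he l x.1 _ x.2.2
  choose g hg1 hg2 using hg
  let G : Fin M → Polynomial (MvPolynomial (Fin s) ℤ) := fun l => ∏ x : ι, g l x
  have hcop : ∀ l, CoprimeTo (h l) (G l) := fun l => CoprimeTo.prod _ _ (hg2 l)
  refine ⟨G, hcop, fun v hgood => ?_⟩
  choose p hp hOk using hgood
  refine coreP m supp _ e hgen p hp fun l j β hβ V hV => ?_
  obtain ⟨hph, hp2, hpG⟩ := hOk l
  have h1 := hg1 l ⟨j, β, hβ⟩
  have h2 : ¬ (p l : ℤ) ∣ ev (v 0) (fun i => v i.succ) (g l ⟨j, β, hβ⟩) := by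
    intro h3
    apply hpG
    change (p l : ℤ) ∣ ev (v 0) (fun i => v i.succ) (∏ x : ι, g l x)
    rw [map_prod]
    exact h3.trans (Finset.dvd_prod_of_mem _ (Finset.mem_univ (⟨j, β, hβ⟩ : ι)))
  have h3 : ev (v 0) (fun i => v i.succ) (c j β) = ev (v 0) (fun i => v i.succ) (h l) ^ e l j β *
      ev (v 0) (fun i => v i.succ) (g l ⟨j, β, hβ⟩) := by
    rw [h1, map_mul, map_pow]
  obtain ⟨u, hu⟩ := hph
  have hpu : ¬ (p l : ℤ) ∣ u := by
    rintro ⟨u', rfl⟩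
    exact hp2 ⟨u', by rw [hu]; ring⟩
  have h4 : V.valuation ((ev (v 0) (fun i => v i.succ) (h l) : ℤ) : ℂ) = V.valuation (p l : ℂ) := by
    rw [hu]
    push_cast
    rw [map_mul, Pool.Agent.W466.ZP.int_unit V (hp l) hV _ hpu, mul_one]
  rw [h3]
  push_cast
  rw [map_mul, map_pow, h4, Pool.Agent.W466.ZP.int_unit V (hp l) hV _ h2, mul_one]

/-- the exceptional vectors for one pair of coprime polynomials -/
def Bp {s : ℕ} (h G : Polynomial (MvPolynomial (Fin s) ℤ)) : Set (Fin (s + 1) → ℤ) :=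
  {v | ¬ ∃ p : ℕ, p.Prime ∧ Ok h G p v}

theorem bp_null (hC : S_CRIT) (hD : S_CLO) {s : ℕ} (h G : Polynomial (MvPolynomial (Fin s) ℤ))
    (hdeg : h.natDegree = 1) (hcop : CoprimeTo h G) : ProNull (Bp h G) := by
  obtain ⟨p₀, hp₀⟩ := dens_Om h G hdeg hcop
  have h1 : ProNull {c : Fin (s + 1) → ℤ | ∀ p, p.Prime → p₀ < p →
      (fun i => (c i : ZMod (p ^ 2))) ∉ Om h G p} := by
    refine hC (Fin (s + 1)) (fun p => p ^ 2) (fun p hp => Nat.one_le_pow _ _ hp.pos)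
      (fun p p' hp hp' hne => Nat.Coprime.pow 2 2 ((Nat.coprime_primes hp hp').2 hne))
      (fun p => Om h G p) p₀ (fun p => 1 / 4 * (1 / (p : ℝ))) (fun p => by positivity) ?_ ?_
    · refine Pool.Agent.N603.TH.not_summable_of_ge (δ := 1 / 4) (p₀ := 0) (fun p => ?_) (by norm_num)
        fun p hp _ => ?_
      · split_ifs <;> positivity
      · rw [if_pos hp]
        exact le_of_eq (by ring)
    · intro p hp hlt
      have h2 := hp₀ p hp hlt
      have hp0 : (0 : ℝ) < p := by exact_mod_cast hp.pos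
      unfold Pool.Agent.N666.TM.dens at h2
      rw [le_div_iff₀ (by push_cast; positivity)] at h2
      exact h2
  refine (hD (Fin (s + 1))).1 _ _ ?_ h1
  intro v hv p hp hlt hin
  exact hv ⟨p, hp, (mem_Om h G p hp.one_lt.le v).1 hin⟩

/-- pairs of coprime polynomials, the first one of degree one in the first variable -/
def DatP (s : ℕ) : Type :=
  {x : Polynomial (MvPolynomial (Fin s) ℤ) × Polynomial (MvPolynomial (Fin s) ℤ) //
    x.1.natDegree = 1 ∧ CoprimeTo x.1 x.2}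

theorem countable_poly (s : ℕ) : Countable (Polynomial (MvPolynomial (Fin s) ℤ)) := by
  have := Pool.Agent.N618.RO.countable_mv s
  rw [← Cardinal.mk_le_aleph0_iff]
  refine Polynomial.cardinalMk_le_max.trans ?_
  simp

instance (s : ℕ) : Countable (DatP s) := by
  have := countable_poly s
  unfold DatP
  infer_instance

/-- for almost all metric sequences: one set of density zero for all pairs of polynomials -/
theorem parts_pink (hC : S_CRIT) (hD : S_CLO) (hM : S_MET) (s : ℕ)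
    (P : (ℕ → Fin (s + 1) → ℤ) → Prop)
    (hP : ∀ (c : ℕ → Fin (s + 1) → ℤ) (E : Set ℕ),
      Tendsto (fun N : ℕ => (({n : ℕ | n < N ∧ n ∈ E}.ncard : ℕ) : ℝ) / (N : ℝ)) atTop (𝓝 0) →
      (∀ h G : Polynomial (MvPolynomial (Fin s) ℤ), h.natDegree = 1 → CoprimeTo h G →
        {n : ℕ | n ∉ E ∧ ¬ ∃ p : ℕ, p.Prime ∧ Ok h G p (c n)}.Finite) → P c) :
    (∀ (a b : Fin (s + 1) → ℝ) (f : Fin (s + 1) → ℕ → ℝ → ℝ), (∀ i, a i < b i) →
      (∀ i, Koksma (a i) (b i) (f i)) →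
      ∀ᵐ α : Fin (s + 1) → ℝ, (∀ i, α i ∈ Set.Icc (a i) (b i)) → P (fun n i => ⌊f i n (α i)⌋)) ∧
    (∀ (a : Fin (s + 1) → ℕ → ℝ) (δ : ℝ), 0 < δ → (∀ i m n, m ≠ n → δ ≤ |a i m - a i n|) →
      ∀ᵐ α : Fin (s + 1) → ℝ, P (fun n i => ⌊a i n * α i⌋)) ∧
    (∀ (k : ℕ → ℕ) (ξ : Fin (s + 1) → ℝ), Function.Injective k → (∀ i, ξ i ≠ 0) →
      ∀ᵐ α : Fin (s + 1) → ℝ, (∀ i, 1 < α i) → P (fun n i => ⌊ξ i * α i ^ k n⌋)) := by
  refine parts hM (κ := DatP s) (fun x => Bp x.1.1 x.1.2)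
    (fun x => bp_null hC hD _ _ x.2.1 x.2.2) P fun c hc => ?_
  obtain ⟨E, e1, e2⟩ := one_set c _ hc
  exact hP c E e1 fun h G h1 h2 => e2 ⟨(h, G), h1, h2⟩

end Pool.Agent.N18.KM
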