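import Pool.Agent.N18.KM.Base
import Pool.Agent.N676.OR.Pro

/-!
# Metric sequences of integral vectors and primes which divide a linear form exactly once (helper file)
-/

set_option autoImplicit false

namespace Pool.Agent.N18.KM

open MeasureTheory Filter Topology
open Pool.Agent.N24.RW Pool.Agent.N24.KM
open Pool.Agent.N676.OR (Hit Big lin pro_hits)

/-- For countably many properties of integers which hold for all integers which are divisible exactly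
once by a prime of each of finitely many big sets: one set of density zero. -/
theorem parts_tw (hM : S_MET) {𝔇 ι : Type} [Countable 𝔇] [Fintype ι] (good : 𝔇 → ℤ → Prop)
    (h : ∀ D, ∃ PP : Set (Set ℕ), PP.Finite ∧ (∀ P ∈ PP, Big P) ∧
      ∀ a : ℤ, (∀ P ∈ PP, Hit P a) → good D a)
    (P : (ℕ → ι → ℤ) → Prop)
    (hP : ∀ (c : ℕ → ι → ℤ) (E : Set ℕ),
      Tendsto (fun N : ℕ => (({n : ℕ | n < N ∧ n ∈ E}.ncard : ℕ) : ℝ) / (N : ℝ)) atTop (𝓝 0) →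
      (∀ lam : ι → ℤ, lam ≠ 0 → ∀ D, {n : ℕ | n ∉ E ∧ ¬ good D (∑ i, lam i * c n i)}.Finite) →
      P c) :
    (∀ (a b : ι → ℝ) (f : ι → ℕ → ℝ → ℝ), (∀ i, a i < b i) → (∀ i, Koksma (a i) (b i) (f i)) →
      ∀ᵐ α : ι → ℝ, (∀ i, α i ∈ Set.Icc (a i) (b i)) → P (fun n i => ⌊f i n (α i)⌋)) ∧
    (∀ (a : ι → ℕ → ℝ) (δ : ℝ), 0 < δ → (∀ i m n, m ≠ n → δ ≤ |a i m - a i n|) →
      ∀ᵐ α : ι → ℝ, P (fun n i => ⌊a i n * α i⌋)) ∧
    (∀ (k : ℕ → ℕ) (ξ : ι → ℝ), Function.Injective k → (∀ i, ξ i ≠ 0) →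
      ∀ᵐ α : ι → ℝ, (∀ i, 1 < α i) → P (fun n i => ⌊ξ i * α i ^ k n⌋)) := by
  classical
  choose PP h1 h2 h3 using h
  refine parts hM (κ := {lam : ι → ℤ // lam ≠ 0} × 𝔇)
    (fun x => {c : ι → ℤ | ¬ ∀ P ∈ PP x.2, Hit P (lin x.1.1 c)})
    (fun x => pro_hits (h1 x.2) (h2 x.2) x.1.2) P fun c hc => ?_
  obtain ⟨E, e1, e2⟩ := one_set c _ hc
  refine hP c E e1 fun lam hlam D => (e2 (⟨lam, hlam⟩, D)).subset ?_
  rintro n ⟨hn, hng⟩
  exact ⟨hn, fun hall => hng (h3 D _ hall)⟩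

end Pool.Agent.N18.KM
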