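import Pool.Agent.N676.OR.FD
import Pool.Agent.R925.ZC.Res
import Pool.Agent.R925.FD.BM

/-!
# Adelic points and adelic zero-cycles on the twists of cyclic coverings by integers which are divisible
exactly once by a prime of each of finitely many big sets (helper file)

The proofs of `Pool.Agent.R925.FD.bm_main` and `Pool.Agent.R925.ZC.zc_main` with a prime which divides `a`
exactly once instead of a squarefree `a`.
-/

set_option autoImplicit false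
set_option linter.unusedSectionVars false

namespace Pool.Agent.N18.KM

open Finset Polynomial Pool.Agent.R925.FD Pool.Agent.N676.OR
open Pool.Agent.W401.Cheb Pool.Agent.W723.SecC

/-- **The theorem on orthogonal adelic points.** -/
theorem bm_once {K : Type} [Fintype K] [DecidableEq K] {b : ℤ} {g : K → ℤ[X]} {h : ℤ[X]}
    (hb : b ≠ 0) (hg0 : ∀ k, g k ≠ 0) (hh0 : h ≠ 0)
    (hdeg : ∀ k, 2 ∣ (g k).natDegree)
    (hgg : ∀ k l, k ≠ l →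
      IsCoprime ((g k).map (Int.castRingHom ℚ)) ((g l).map (Int.castRingHom ℚ)))
    (hgh : ∀ k, IsCoprime (h.map (Int.castRingHom ℚ)) ((g k).map (Int.castRingHom ℚ))) :
    ∃ PP : Set (Set ℕ), PP.Finite ∧ (∀ P ∈ PP, Big P) ∧ ∀ a : ℤ, (∀ P ∈ PP, Hit P a) →
      ∀ m, 2 ≤ m → m ∣ h.natDegree → ∀ P : AdelicPoint m b a g h, Orthogonal P →
        ∃ n : K → ℤ, (∀ k, Squarefree (n k)) ∧
          IsClass 2 b (fun k => (n k : ℚ)) ∧ Persistent 2 g h (fun k => (n k : ℚ)) ∧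
          (∀ k, IsSquare (value P.re k * (n k : ℝ))) ∧
          ∀ k (p : Nat.Primes), IsSquare (value (P.pa p) k * (n k : ℚ_[(p : ℕ)])) := by
  obtain ⟨PP, h1, h2, h3⟩ := fd_main 2 (by norm_num) b hb g h hg0 hh0 hdeg hgg hgh
  refine ⟨PP, h1, h2, fun a ha m hm hmh P hP => ?_⟩
  obtain ⟨n, hn1, hn2, hn3, hn4⟩ := class_of_orthogonal hb hg0 hh0 hdeg hgg hgh P hP
  refine ⟨n, hn1, hn2, h3 a ha m hm hmh _ hn2 ?_, hn3, hn4⟩
  intro p hp
  refine ⟨(P.pa ⟨p, hp.out⟩).z, (P.pa ⟨p, hp.out⟩).w, (P.pa ⟨p, hp.out⟩).x,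
    (P.pa ⟨p, hp.out⟩).ne, (P.pa ⟨p, hp.out⟩).eq₂, fun k => ?_⟩
  obtain ⟨y, hy⟩ := cval_cov (b := b) (hn1 k).ne_zero (hn4 k ⟨p, hp.out⟩)
  refine ⟨y, ?_⟩
  rw [hy]
  push_cast
  rfl

end Pool.Agent.N18.KM

namespace Pool.Agent.N18.KM

open Finset Polynomial Pool.Agent.R925.FD Pool.Agent.R925.ZC
open Pool.Agent.N676.OR (Hit Big frob_big)
open Pool.Agent.W401.Cheb Pool.Agent.W723.SecC

lemma norm_once {p : ℕ} [hp : Fact p.Prime] {a : ℤ} (hpa : (p : ℤ) ∣ a)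
    (hpa2 : ¬ (p : ℤ) ^ 2 ∣ a) : ‖(a : ℚ_[p])‖ = (p : ℝ)⁻¹ := by
  obtain ⟨n', hn'⟩ := hpa
  have h2 : ¬ (p : ℤ) ∣ n' := by
    rintro ⟨n'', hn''⟩
    exact hpa2 ⟨n'', by rw [hn', hn'']; ring⟩
  have h3 : ‖(n' : ℚ_[p])‖ = 1 := by
    refine le_antisymm (Padic.norm_int_le_one n') ?_
    by_contra hc
    rw [not_le, Padic.norm_intCast_lt_one_iff] at hc
    exact h2 hc
  rw [hn']
  push_cast
  rw [norm_mul, h3, mul_one, Padic.norm_p]

variable {K : Type} [Fintype K] [DecidableEq K] {b : ℤ} {g : K → ℤ[X]} {h : ℤ[X]}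

/-- The values of the adelic zero-cycle are those of a persistent class. -/
def OfClass {m : ℕ} {a : ℤ} (d : ℤ) (Z : AdelicCycle m b a g h) : Prop :=
  ∃ n : K → ℤ, (∀ k, Squarefree (n k)) ∧ IsClassZ d b (fun k => (n k : ℚ)) ∧
    ZPersistent d g h (fun k => (n k : ℚ)) ∧
    (∀ k, IsSquare (cycVal Z.re k * (n k : ℝ))) ∧
    ∀ k (p : Nat.Primes), IsSquare (cycVal (Z.pa p) k * (n k : ℚ_[(p : ℕ)]))

/-- **The theorem on adelic zero-cycles.** -/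
theorem zc_once (hb : b ≠ 0) (hg0 : ∀ k, g k ≠ 0) (hh1 : 1 ≤ h.natDegree)
    (hdeg : ∀ k, 2 ∣ (g k).natDegree)
    (hgg : ∀ k l, k ≠ l →
      IsCoprime ((g k).map (Int.castRingHom ℚ)) ((g l).map (Int.castRingHom ℚ)))
    (hgh : ∀ k, IsCoprime (h.map (Int.castRingHom ℚ)) ((g k).map (Int.castRingHom ℚ))) :
    ∃ PP : Set (Set ℕ), PP.Finite ∧ (∀ P ∈ PP, Big P) ∧ ∀ a : ℤ, (∀ P ∈ PP, Hit P a) →
      ∀ m, Even m → m ∣ h.natDegree → ∀ (d : ℤ) (Z : AdelicCycle m b a g h), Z.Parity d →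
        Z.Orthogonal → OfClass d Z := by
  classical
  have hh0 : h ≠ 0 := by
    rintro rfl
    rw [natDegree_zero] at hh1
    omega
  obtain ⟨N, hNpos, hgood⟩ := exists_good b hb g h hg0 hh0 hgg hgh
  set D : Finset ℤ := (Finset.Icc (-(N : ℤ)) N).filter (fun s => s ≠ 0) with hD
  have hD0 : ∀ s ∈ D, s ≠ 0 := fun s hs => (mem_filter.1 hs).2
  set Δ : Finset ((K → ℤ) × ℤ) := ((Fintype.piFinset fun _ : K => D) ×ˢ ({0, 1} : Finset ℤ)).filter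
    (fun s => ¬ ZPersistent s.2 g h (fun k => (s.1 k : ℚ))) with hΔ
  -- for each class there are many primes
  have hex : ∀ s ∈ Δ, ∃ P : Set ℕ, Big P ∧ ∀ p ∈ P, ∀ _ : Fact p.Prime,
      ¬ p ∣ N ∧ ¬ ZR p s.2 g h s.1 := by
    intro s hs
    rw [hΔ, mem_filter, mem_product, Fintype.mem_piFinset] at hs
    obtain ⟨⟨hsD, -⟩, hnp⟩ := hs
    unfold ZPersistent at hnp
    push Not at hnp
    obtain ⟨σ, hσ⟩ := hnp
    obtain ⟨L, iF, iN, iG, τ, m, hm, hL⟩ := chebZ s.2 b g h hh0 hh1 hdeg N hNpos hgood s.1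
      (fun k => hD0 _ (hsD k)) σ (by
        intro S h1 h2 h3
        obtain ⟨k, hk⟩ := hσ S h3 (fun β hβ => ⟨h1 β hβ, h2 β hβ⟩)
        refine ⟨k, fun y hy => ?_⟩
        have h4 := hk y hy
        rw [Rat.cast_intCast] at h4
        exact h4)
    refine ⟨frobSet L τ (m * N), frob_big L τ (m * N) (Nat.mul_pos hm hNpos), fun p hp hpF => ?_⟩
    exact ⟨fun h4 => hp.2.1 (h4.trans (Dvd.intro_left _ rfl)),
      hL p ⟨hp.1, fun h4 => hp.2.1 (h4.trans (Dvd.intro _ rfl)), hp.2.2⟩⟩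
  choose! P hPbig hP using hex
  refine ⟨P '' (Δ : Set ((K → ℤ) × ℤ)), Δ.finite_toSet.image P, ?_, ?_⟩
  · rintro _ ⟨s, hs, rfl⟩
    exact hPbig s hs
  intro a hhit m hm hmh d Z hodd hZ
  obtain ⟨n, hn1, hn2, hn3, hn4⟩ :=
    Pool.Agent.R925.ZC.class_of_orthogonal hb hg0 hh0 hdeg hgg hgh Z hodd hZ
  refine ⟨n, hn1, hn2, ?_, hn3, hn4⟩
  have hnd : ∀ k, ∀ p : ℕ, p.Prime → ¬ p ∣ N → ¬ (p : ℤ) ∣ n k := by
    intro k p hp hpN
    have hpF : Fact p.Prime := ⟨hp⟩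
    exact not_dvd_of_sq (hgood p hpN) hdeg (Z.pa ⟨p, hp⟩) k (hn1 k) (hn4 k ⟨p, hp⟩)
  by_contra hnp
  have hsΔ : ((n, d % 2) : (K → ℤ) × ℤ) ∈ Δ := by
    rw [hΔ, mem_filter, mem_product, Fintype.mem_piFinset]
    refine ⟨⟨fun k => ?_, ?_⟩, fun hper => hnp ?_⟩
    · change n k ∈ D
      rw [hD, mem_filter, Finset.mem_Icc]
      have h3 := Nat.le_of_dvd hNpos (dvd_of_primes (hn1 k) hNpos (hnd k))
      refine ⟨⟨by omega, by omega⟩, (hn1 k).ne_zero⟩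
    · rw [Finset.mem_insert, Finset.mem_singleton]
      change d % 2 = 0 ∨ d % 2 = 1
      omega
    · intro σ
      obtain ⟨S, hS1, hS2, hS3⟩ := hper σ
      exact ⟨S, hS1.trans (even_emod d), hS2, hS3⟩
  obtain ⟨p, hpP, hpp, hpa, hpa2⟩ := hhit (P (n, d % 2)) ⟨_, hsΔ, rfl⟩
  have hpF : Fact p.Prime := ⟨hpp⟩
  obtain ⟨hpN, hR⟩ := hP _ hsΔ p hpP hpF
  apply hR
  exact reducesZ (hgood p hpN) hdeg hm hmh (norm_once hpa hpa2) (Z.pa ⟨p, hpF.out⟩)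
    ((hodd.2 ⟨p, hpF.out⟩).trans (even_emod d).symm) n (fun k => hnd k p hpF.out hpN)
    (fun k => hn4 k ⟨p, hpF.out⟩)

end Pool.Agent.N18.KM
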